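import Pool.Agent.R826.SPFin

set_option autoImplicit false

/-!
# MP_fc9311_an: the relative maximal dimension gap of Barański sponges grows linearly

For every `d ≥ 2` the relative maximal dimension gap `MDG'(d)` is at least `⌈d/2⌉ - 2`; so it is
not bounded, and with the known bound `MDG'(d) ≤ d - 2` its growth is linear. For every `η > 0`
there is a Barański sponge in `[0,1]^d` with dynamical dimension in `(0, 1 + η]` and Hausdorff
dimension at least `⌈d/2⌉ - 1 - η`. (`(d + 1) / 2` and `(d - 1) / 2` are integer divisions: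
`⌈d/2⌉` and `⌈d/2⌉ - 1`.) All definitions are in `Pool/Agent/R826/SPDefs.lean`.
-/

namespace Pool.Agent.Results.MP_fc9311_an.GapUnbounded

open Pool.Agent.R826.SP MeasureTheory Filter Topology
open scoped ENNReal

theorem result :
    (∀ d : ℕ, 2 ≤ d → (((d + 1) / 2 - 2 : ℕ) : ℝ≥0∞) ≤ MDG d) ∧
    Tendsto MDG atTop (𝓝 ⊤) ∧ (⨆ d, MDG d) = ⊤ ∧
    ∀ d : ℕ, 2 ≤ d → ∀ η : ℝ, 0 < η → ∃ S : Sys d, S.Baranski ∧ S.E.Nontrivial ∧
      0 < S.DynD ∧ S.DynD ≤ ENNReal.ofReal (1 + η) ∧
      ENNReal.ofReal ((((d - 1) / 2 : ℕ) : ℝ) - η) ≤ S.HD := by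
  have hlim : Tendsto MDG atTop (𝓝 ⊤) := by
    rw [ENNReal.tendsto_nhds_top_iff_nat]
    intro n
    filter_upwards [eventually_ge_atTop (2 * n + 6)] with d hd
    refine lt_of_lt_of_le ?_ (MDG_ge d (by omega))
    have : n < (d + 1) / 2 - 2 := by omega
    exact_mod_cast this
  refine ⟨MDG_ge, hlim, ?_, exists_sponge⟩
  refine eq_top_iff.2 (le_of_tendsto hlim (Eventually.of_forall fun d => le_iSup MDG d))

end Pool.Agent.Results.MP_fc9311_an.GapUnbounded
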